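import Pool.Agent.Helper96.DP.Speed
import Pool.Agent.Helper96.DP.Back

/-!
# The speed of the biased walk on dynamical percolation on the critical curve

`Pool.Agent.Helper96.DP.Def` holds the model: `modelLaw d μ p lam` is the annealed law, `walk ω t`
the position at time `t`, and `IsSpeed d μ p lam v` says that `walk ω t / t → (v, 0, …, 0)` almost
surely.
-/

namespace Pool.Agent.Results.MP_f058f1_pr.CriticalCurve

open Pool.Agent.Helper96.DP Filter Topology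

lemma mm_pos {d : ℕ} [NeZero d] (hd : 2 ≤ d) : 0 < mm d := by
  rw [mm_eq]
  have : (2 : ℝ) ≤ d := by exact_mod_cast hd
  linarith

lemma dirProb_eq {d : ℕ} [NeZero d] (lam : ℝ) :
    (dirProb lam : Dir d → ℝ) = qw (1 / Z d lam) (Real.exp (-lam) / Z d lam) := by
  have hZ := Z_pos (d := d) lam
  funext a
  by_cases h : a.1 = 0
  · obtain ⟨i, s⟩ := a
    simp only at h; subst h
    cases s
    · change dirProb lam minus = qw _ _ minus
      rw [dirProb_minus, qw_minus]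
    · change dirProb lam plus = qw _ _ plus
      rw [dirProb_plus, qw_plus, eq_sub_iff_add_eq, eq_sub_iff_add_eq]
      field_simp
      rw [Z_eq]
  · have h' : a ∈ lat d := mem_lat.2 h
    rw [dirProb_lat lam h', qw_lat _ _ h']

/-- The reciprocal of the normalisation in terms of `x = e^{-λ}`. -/
lemma inv_Z {d : ℕ} [NeZero d] (lam : ℝ) :
    1 / Z d lam = Real.exp (-lam) / (1 + mm d * Real.exp (-lam) + Real.exp (-lam) ^ 2) := by
  have hZ := Z_pos (d := d) lam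
  have hx := Real.exp_pos (-lam)
  have hm := mm_nonneg (d := d)
  have h1 : Real.exp lam * Real.exp (-lam) = 1 := by rw [← Real.exp_add]; simp
  rw [div_eq_div_iff hZ.ne' (by positivity), Z_eq]
  linear_combination -h1

lemma diff_aux {m x y : ℝ} (hm : 0 ≤ m) (hx : 0 < x) (hxy : x < y) (hy : (m + 1) * y ≤ 1 / 2) :
    let ε₁ := x / (1 + m * x + x ^ 2)
    let ε₂ := y / (1 + m * y + y ^ 2)
    ε₁ < ε₂ ∧ x * ε₁ ≤ y * ε₂ ∧ y * ε₂ - x * ε₁ ≤ 10 * (ε₂ - ε₁) * ε₂ ∧ y * ε₂ ≤ 2 * ε₂ ^ 2 ∧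
      0 < ε₂ ∧ ε₂ ≤ y ∧ x * ε₁ ≤ 2 * ε₁ ^ 2 ∧ 0 < ε₁ ∧ ε₁ ≤ 1 ∧ ε₂ ≤ 1 := by
  intro ε₁ ε₂
  have hy0 : 0 < y := hx.trans hxy
  have hy1 : y ≤ 1 / 2 := by nlinarith
  have hD1 : 1 ≤ 1 + m * x + x ^ 2 := by
    have : 0 ≤ m * x := by positivity
    nlinarith
  have hD2 : 1 ≤ 1 + m * y + y ^ 2 := by
    have : 0 ≤ m * y := by positivity
    nlinarith
  have hD2' : 1 + m * y + y ^ 2 ≤ 2 := by nlinarith
  have hD1' : 1 + m * x + x ^ 2 ≤ 2 := by nlinarith
  have hD1p : 0 < 1 + m * x + x ^ 2 := by linarith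
  have hD2p : 0 < 1 + m * y + y ^ 2 := by linarith
  have e1 : ε₁ * (1 + m * x + x ^ 2) = x := div_mul_cancel₀ _ hD1p.ne'
  have e2 : ε₂ * (1 + m * y + y ^ 2) = y := div_mul_cancel₀ _ hD2p.ne'
  have h1 : 0 < ε₁ := by positivity
  have h2 : 0 < ε₂ := by positivity
  have hy2 : y ≤ 2 * ε₂ := by nlinarith
  have hx2 : x ≤ 2 * ε₁ := by nlinarith
  have hε2y : ε₂ ≤ y := by nlinarith
  have hε1x : ε₁ ≤ x := by nlinarith
  have hxy1 : x * y ≤ 1 / 4 := by nlinarith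
  -- the difference
  have e3 : (ε₂ - ε₁) * ((1 + m * x + x ^ 2) * (1 + m * y + y ^ 2)) = (y - x) * (1 - x * y) := by
    have : (ε₂ - ε₁) * ((1 + m * x + x ^ 2) * (1 + m * y + y ^ 2)) =
        (ε₂ * (1 + m * y + y ^ 2)) * (1 + m * x + x ^ 2) -
        (ε₁ * (1 + m * x + x ^ 2)) * (1 + m * y + y ^ 2) := by ring
    rw [this, e1, e2]; ring
  have hDD : 0 < (1 + m * x + x ^ 2) * (1 + m * y + y ^ 2) := by positivity
  have hDD4 : (1 + m * x + x ^ 2) * (1 + m * y + y ^ 2) ≤ 4 := by nlinarith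
  have hpos : 0 < (y - x) * (1 - x * y) := mul_pos (by linarith) (by linarith)
  have h12 : ε₁ < ε₂ := by
    have : 0 < (ε₂ - ε₁) * ((1 + m * x + x ^ 2) * (1 + m * y + y ^ 2)) := by rw [e3]; exact hpos
    have := (mul_pos_iff_of_pos_right hDD).1 this
    linarith
  have h13 : y - x ≤ 16 / 3 * (ε₂ - ε₁) := by
    have a1 : (y - x) * (3 / 4) ≤ (y - x) * (1 - x * y) :=
      mul_le_mul_of_nonneg_left (by linarith) (by linarith)
    have a2 : (ε₂ - ε₁) * ((1 + m * x + x ^ 2) * (1 + m * y + y ^ 2)) ≤ (ε₂ - ε₁) * 4 :=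
      mul_le_mul_of_nonneg_left hDD4 (by linarith)
    linarith
  have h14 : y * (ε₂ - ε₁) ≤ 2 * ε₂ * (ε₂ - ε₁) := mul_le_mul_of_nonneg_right hy2 (by linarith)
  have h15 : (y - x) * ε₁ ≤ 16 / 3 * (ε₂ - ε₁) * ε₂ := by
    refine mul_le_mul h13 h12.le h1.le ?_
    have : 0 < ε₂ - ε₁ := by linarith
    positivity
  refine ⟨h12, ?_, ?_, ?_, h2, hε2y, ?_, h1, ?_, ?_⟩
  · exact mul_le_mul hxy.le h12.le h1.le hy0.le
  · have a1 : y * ε₂ - x * ε₁ = y * (ε₂ - ε₁) + (y - x) * ε₁ := by ring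
    have a2 : 0 ≤ ε₂ * (ε₂ - ε₁) := mul_nonneg h2.le (by linarith)
    rw [a1]
    nlinarith
  · nlinarith
  · nlinarith
  · linarith
  · linarith

/-- **Eventual monotonicity of the speed on the critical curve.** Let `d ≥ 2`, `μ > 0`, `0 < p < 1`
and `μ² = p(1-p)`. Let `v lam` be the speed of the walk with bias `lam` on dynamical percolation,
for every `lam > 0`. Then there is `lam0 > 0` such that `v` is strictly increasing on
`[lam0, ∞)`. -/
theorem result (d : ℕ) [NeZero d] (hd : 2 ≤ d) (μ : ℝ) (p : unitInterval) (hμ : 0 < μ)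
    (hp0 : 0 < (p : ℝ)) (hp1 : (p : ℝ) < 1) (hcrit : μ ^ 2 = (p : ℝ) * (1 - p))
    (v : ℝ → ℝ) (hv : ∀ lam : ℝ, 0 < lam → IsSpeed d μ p lam (v lam)) :
    ∃ lam0 : ℝ, 0 < lam0 ∧ StrictMonoOn v (Set.Ici lam0) := by
  have hm := mm_pos hd
  obtain ⟨δ, hδ, hanti⟩ := stat_anti (d := d) hμ hp0 hp1 hcrit hm (B := 10) (by norm_num)
  set c : ℝ := min δ (1 / (2 * (mm d + 1))) with hc
  have hc0 : 0 < c := lt_min hδ (by positivity)
  have h1 : Tendsto (fun lam : ℝ => Real.exp (-lam)) atTop (𝓝 0) :=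
    Real.tendsto_exp_neg_atTop_nhds_zero
  obtain ⟨lam1, hlam1⟩ := eventually_atTop.1 (h1.eventually_lt_const hc0)
  refine ⟨max lam1 1, lt_of_lt_of_le one_pos (le_max_right _ _), ?_⟩
  intro a ha b hb hab
  have ha1 : max lam1 1 ≤ a := ha
  have ha0 : 0 < a := lt_of_lt_of_le one_pos ((le_max_right _ _).trans ha1)
  have hb0 : 0 < b := ha0.trans hab
  rw [speed_eq_nu hμ (hv a ha0), speed_eq_nu hμ (hv b hb0), dirProb_eq, dirProb_eq]
  have hx : 0 < Real.exp (-b) := Real.exp_pos _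
  have hxy : Real.exp (-b) < Real.exp (-a) := Real.exp_lt_exp.2 (by linarith)
  have hyc : Real.exp (-a) < c := hlam1 a ((le_max_left _ _).trans ha1)
  have hy : (mm d + 1) * Real.exp (-a) ≤ 1 / 2 := by
    have h2 : Real.exp (-a) ≤ 1 / (2 * (mm d + 1)) := hyc.le.trans (min_le_right _ _)
    rw [le_div_iff₀ (by positivity)] at h2
    linarith
  obtain ⟨k1, k2, k3, k4, k5, k6, k7, k8, k9, k10⟩ := diff_aux hm.le hx hxy hy
  have e1 : ∀ lam : ℝ, Real.exp (-lam) / Z d lam = Real.exp (-lam) * (1 / Z d lam) := fun lam => by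
    ring
  have hsum : ∀ lam : ℝ, mm d * (1 / Z d lam) + Real.exp (-lam) * (1 / Z d lam) ≤ 1 := by
    intro lam
    have hw := (wts_dirProb (d := d) lam).nonneg plus
    rw [dirProb_eq, qw_plus, e1] at hw
    linarith
  have hsa := hsum a
  have hsb := hsum b
  rw [e1, e1]
  rw [inv_Z] at hsa hsb ⊢
  rw [inv_Z]
  exact hanti _ _ _ _ ⟨k8.le, k9, mul_nonneg hx.le k8.le, k7, hsb⟩
    ⟨k5.le, k10, mul_nonneg (Real.exp_pos _).le k5.le, k4, hsa⟩ k1
    (k6.trans (hyc.le.trans (min_le_left _ _))) k2 k3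

end Pool.Agent.Results.MP_f058f1_pr.CriticalCurve
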